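import Pool.Agent.H65.Car.Fin

/-!
# No limit of tournaments has more carousel tournaments `R_{2n+1}` than the carousel limit

Outline.  In the symmetric game on the vertices of a tournament in which `x` wins against `y` if
`x → y`, call a set `S` completely mixed if positive weights on `S` make all its vertices equal; such
a set is odd, its weights are unique up to a factor and they strictly beat or strictly lose against
every other vertex (parity).  Every nonempty finite `T` contains exactly one completely mixed `S`
whose weights beat all of `T \ S` (the bipartisan set).  Möbius inversion gives the identity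
`∑ 2^|S| ∏_{u ∈ T \ S} sgn (S against u) = 1 - (-1)^|T|`, the sum over the completely mixed `S ⊆ T`.
For vertices `x_1, ..., x_r` sampled with replacement, `r = 2n+1`, the terms with `S ≠ T` have
nonnegative expectation, as an even power of `E sgn (S against u)`; hence completely mixed `r`-sets
have density at most `2^(1-r) = 4^(-n)`.  Regular tournaments, so also `R_{2n+1}`, are completely
mixed; and the density of `R_{2n+1}` in the carousel limit is `4^(-n)`.
-/

set_option autoImplicit false

open Filter Topology Pool.Agent.H65.Car

namespace Pool.Agent.Results.MP_286abe_co.CarouselDensity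

/-- The carousel tournaments converge; their limit `φR` is a limit of tournaments, and for every `n`
its density of `R_{2n+1}` is the greatest density of `R_{2n+1}` in a limit of tournaments. The value is
`4^(-n)`. -/
theorem result :
    ∃ φR : ∀ k : ℕ, Tournament k → ℝ,
      (∀ (k : ℕ) (T : Tournament k),
        Tendsto (fun m => density T (carousel m)) atTop (𝓝 (φR k T))) ∧
      IsLimit φR ∧
      ∀ n : ℕ,
        IsGreatest {x : ℝ | ∃ φ : ∀ k : ℕ, Tournament k → ℝ, IsLimit φ ∧ x = φ (2 * n + 1) (carousel n)}
          (φR (2 * n + 1) (carousel n)) ∧
        φR (2 * n + 1) (carousel n) = (1 / 4) ^ n := by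
  refine ⟨phiR, tendsto_carousel, isLimit_phiR, fun n => ⟨⟨⟨phiR, isLimit_phiR, rfl⟩, ?_⟩, phiR_carousel n⟩⟩
  rintro x ⟨φ, hφ, rfl⟩
  rw [phiR_carousel]
  exact limit_le hφ n

end Pool.Agent.Results.MP_286abe_co.CarouselDensity
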